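import Pool.Agent.Work.MP_510745_lc.Neg.Fin1
import Pool.Agent.Work.MP_510745_lc.Neg.Fin2
import Pool.Agent.Work.MP_510745_lc.Neg.FinG
import Pool.Agent.Work.MP_510745_lc.Neg.Step
import Pool.Agent.Work.MP_510745_lc.Neg.HaltH

/-!
MP_510745_lc: the degree of a Sigma_1 cut has a minimal cover in the special region in some
models of PA^- + exp + BSigma_1 without ISigma_1, but not in all of them.
-/

namespace Pool.Agent.Results.MP_510745_lc.SomeButNotAll

open Pool.Agent.BSig Pool.Agent.BSig.Neg

/-- (1) There are a model `M` of `PA^- + exp + IΔ₀ + BΣ₁` in which `IΣ₁` fails and a halting set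
`H` of `M` such that for every `Σ₁` cut `I` of `M` (one exists) the degree of `I` has a minimal
cover in the special region. (2) There is a model `M` of the same theory in which `IΣ₁` fails,
with a halting set, such that for no `Σ₁` cut `I` of `M` (one exists) the degree of `I` has a
minimal cover among the c.e. degrees. -/
theorem result :
    (∃ (M : Type) (S : AStr M), IsPAMinusExp S ∧ IDelta0 S ∧ BSigma1 S ∧ ¬ ISigma1 S ∧
      ∃ H : M → Prop, IsHalting S H ∧ (∃ I : M → Prop, IsCut S I ∧ CE S I) ∧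
        ∀ I : M → Prop, IsCut S I → CE S I → ∃ A : M → Prop,
          InRegion S I H A ∧ IsMinCoverP S I A) ∧
    ∃ (M : Type) (S : AStr M), IsPAMinusExp S ∧ IDelta0 S ∧ BSigma1 S ∧ ¬ ISigma1 S ∧
      (∃ H : M → Prop, IsHalting S H) ∧ (∃ I : M → Prop, IsCut S I ∧ CE S I) ∧
        ∀ I : M → Prop, IsCut S I → CE S I → ∀ A : M → Prop, ¬ IsMinCoverP S I A := by
  obtain ⟨H, hH, -, hno⟩ := final_step fun H hH hc => step hH hc
  exact ⟨half1, MH H, SH hH, isPA_H hH, iDelta0_H hH, bSigma1_H hH, not_iSigma1_H hH,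
    ex_halting hH, ⟨cutH H, isCut_H hH, ce_cut hH⟩,
    fun I hI hIc A => no_minimal_cover hH hno I hI hIc A⟩

end Pool.Agent.Results.MP_510745_lc.SomeButNotAll
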